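import Mathlib

namespace Pool.Agent.Results.MP_09fe95_al.Summand

open scoped TensorProduct

variable {M k V : Type*} [Monoid M] [Field k] [AddCommGroup V] [Module k V]

/-- The diagonal action of `m` on the tensor power `V^{⊗ n}`. -/
noncomputable def act (ρ : M → Module.End k V) (n : ℕ) (m : M) :
    Module.End k (⨂[k] _ : Fin n, V) :=
  PiTensorProduct.map fun _ => ρ m

/-- The module `X` with action `σ` has a nonzero direct summand on which non-units act as `0`. -/
def HasIndSummand {X : Type*} [AddCommGroup X] [Module k X] (σ : M → Module.End k X) : Prop :=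
  ∃ W U : Submodule k X, IsCompl W U ∧ W ≠ ⊥ ∧ (∀ m, ∀ x ∈ W, σ m x ∈ W) ∧
    (∀ m, ∀ x ∈ U, σ m x ∈ U) ∧ ∀ m, ¬ IsUnit m → ∀ x ∈ W, σ m x = 0

/-- The diagonal action of `M` on the tensor power `V^{⊗ n}`. -/
noncomputable def tpow (ρ : M →* Module.End k V) (n : ℕ) :
    M →* Module.End k (⨂[k] _ : Fin n, V) where
  toFun m := PiTensorProduct.map fun _ => ρ m
  map_one' := by simp only [map_one]; exact PiTensorProduct.map_one
  map_mul' a b := by simp only [map_mul]; exact PiTensorProduct.map_mul _ _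

lemma tpow_tprod (ρ : M →* Module.End k V) (n : ℕ) (m : M) (x : Fin n → V) :
    tpow ρ n m (PiTensorProduct.tprod k x) = PiTensorProduct.tprod k fun i => ρ m (x i) :=
  PiTensorProduct.map_tprod _ _

lemma not_inj [Finite M] (ρ : M →* Module.End k V) (h : ∀ m, ρ m = 1 → m = 1) {m : M}
    (hm : ¬ IsUnit m) : ¬ Function.Injective (ρ m) := by
  intro hi
  have key : ∀ a b : ℕ, a < b → m ^ a ≠ m ^ b := by
    intro a b hab e
    obtain ⟨c, rfl⟩ := Nat.exists_eq_add_of_lt hab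
    have h1 : ρ (m ^ (c + 1)) = 1 := by
      ext v
      apply Module.End.iterate_injective hi a
      rw [← map_pow, ← Module.End.mul_apply, ← map_mul, ← pow_add, ← add_assoc, ← e]
      rfl
    exact hm (IsUnit.of_pow_eq_one (h _ h1) (by omega))
  obtain ⟨a, b, hab, e⟩ := Finite.exists_ne_map_eq_of_infinite fun n : ℕ => m ^ n
  rcases lt_or_gt_of_ne hab with h' | h'
  · exact key _ _ h' e
  · exact key _ _ h' e.symm

lemma normalize {v : V} {f : V →ₗ[k] k} (h : f v ≠ 0) : ((f v)⁻¹ • f) v = 1 := by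
  simp [h]

lemma pairA [Finite M] [Nontrivial V] (ρ : M →* Module.End k V) (h : ∀ m, ρ m = 1 → m = 1)
    (m : M) : ∃ (v : V) (f : V →ₗ[k] k), f v = 1 ∧ (¬ IsUnit m → ρ m v = 0) ∧
      ((¬ ∃ c : k, ρ m = c • 1) → f (ρ m v) = 0) := by
  by_cases hm : IsUnit m
  · by_cases hs : ∃ c : k, ρ m = c • 1
    · obtain ⟨v, hv⟩ := exists_ne (0 : V)
      obtain ⟨f, hf⟩ := Module.Projective.exists_dual_eq_one k hv
      exact ⟨v, f, hf, fun h => (h hm).elim, fun h => (h hs).elim⟩
    · have : ¬ ∀ v, ¬ LinearIndependent k ![v, ρ m v] := fun h' =>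
        hs (LinearMap.exists_eq_smul_id_of_forall_notLinearIndependent h')
      push Not at this
      obtain ⟨v, hv⟩ := this
      have hn : v ∉ Submodule.span k {ρ m v} := by
        intro hmem
        obtain ⟨a, ha⟩ := Submodule.mem_span_singleton.1 hmem
        have := (LinearIndependent.pair_iff.1 hv 1 (-a) (by rw [one_smul, neg_smul, ha]; simp)).1
        exact one_ne_zero this
      obtain ⟨f, hf, hk⟩ := Submodule.exists_le_ker_of_notMem hn
      refine ⟨v, _, normalize hf, fun h => (h hm).elim, fun _ => ?_⟩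
      have : f (ρ m v) = 0 := hk (Submodule.mem_span_singleton_self _)
      simp [this]
  · have hi := not_inj ρ h hm
    rw [← LinearMap.ker_eq_bot] at hi
    obtain ⟨v, hv, hv0⟩ := (Submodule.ne_bot_iff _).1 hi
    obtain ⟨f, hf⟩ := Module.Projective.exists_dual_eq_one k hv0
    have hv' : ρ m v = 0 := hv
    exact ⟨v, f, hf, fun _ => hv', fun _ => by rw [hv', map_zero]⟩

lemma pairB [Finite M] [Nontrivial V] [FiniteDimensional k V] (ρ : M →* Module.End k V)
    (h : ∀ m, ρ m = 1 → m = 1) (m : M) :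
    ∃ (v : V) (f : V →ₗ[k] k), f v = 1 ∧ (¬ IsUnit m → ∀ x, f (ρ m x) = 0) := by
  by_cases hm : IsUnit m
  · obtain ⟨v, hv⟩ := exists_ne (0 : V)
    obtain ⟨f, hf⟩ := Module.Projective.exists_dual_eq_one k hv
    exact ⟨v, f, hf, fun h => (h hm).elim⟩
  · have hi := not_inj ρ h hm
    rw [LinearMap.injective_iff_surjective, ← LinearMap.range_eq_top] at hi
    obtain ⟨f, hf, hk⟩ := (LinearMap.range (ρ m)).exists_le_ker_of_lt_top (lt_top_iff_ne_top.2 hi)
    obtain ⟨v, hv⟩ : ∃ v, f v ≠ 0 := by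
      by_contra hc
      push Not at hc
      exact hf (LinearMap.ext hc)
    refine ⟨v, _, normalize hv, fun _ x => ?_⟩
    have : f (ρ m x) = 0 := hk ⟨x, rfl⟩
    simp [this]

/-- units acting as scalars -/
def scal (ρ : M →* Module.End k V) : Subgroup Mˣ where
  carrier := {g | ∃ c : k, ρ ((g⁻¹ : Mˣ) : M) = c • 1}
  one_mem' := ⟨1, by simp⟩
  mul_mem' := by
    rintro a b ⟨c, hc⟩ ⟨d, hd⟩
    exact ⟨d * c, by rw [mul_inv_rev, Units.val_mul, map_mul, hc, hd, smul_mul_smul_comm, mul_one]⟩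
  inv_mem' := by
    rintro a ⟨c, hc⟩
    have e : c • ρ (a : M) = 1 := by
      rw [← one_mul (ρ a), ← smul_mul_assoc, ← hc, ← map_mul, Units.inv_mul, map_one]
    by_cases h0 : c = 0
    · refine ⟨0, ?_⟩
      rw [h0, zero_smul] at e
      rw [← one_mul (ρ _), ← e]; simp
    · exact ⟨c⁻¹, by rw [inv_inv, ← e, smul_smul, inv_mul_cancel₀ h0, one_smul]⟩

lemma card_ne [Finite M] [Nontrivial V] (ρ : M →* Module.End k V) (h : ∀ m, ρ m = 1 → m = 1) :
    (Nat.card (scal ρ) : k) ≠ 0 := by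
  intro h0
  have hp := (CharP.cast_eq_zero_iff k (ringChar k) _).1 h0
  rcases CharP.char_is_prime_or_zero k (ringChar k) with hq | hq
  · haveI := Fact.mk hq
    obtain ⟨z, hz⟩ := exists_prime_orderOf_dvd_card' (G := scal ρ) _ hp
    obtain ⟨c, hc⟩ := z.2
    have h1 : ((z : Mˣ)⁻¹) ^ ringChar k = 1 := by
      rw [inv_pow, ← Subgroup.coe_pow, ← hz, pow_orderOf_eq_one]; simp
    have h2 : (c ^ ringChar k) • (1 : Module.End k V) = 1 := by
      have := congrArg (fun u : Mˣ => ρ (u : M)) h1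
      simpa [hc, smul_pow] using this
    have h3 : c ^ ringChar k = 1 := by
      have : (c ^ ringChar k - 1) • (1 : Module.End k V) = 0 := by rw [sub_smul, h2]; simp
      exact sub_eq_zero.1 ((smul_eq_zero.1 this).resolve_right one_ne_zero)
    have h4 : c = 1 := by
      have : (c - 1) ^ ringChar k = 0 := by rw [sub_pow_char, h3]; simp
      exact sub_eq_zero.1 (pow_eq_zero_iff hq.ne_zero |>.1 this)
    have h5 : (((z : Mˣ)⁻¹ : Mˣ) : M) = 1 := h _ (by rw [hc, h4, one_smul])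
    have h6 : z = 1 := Subtype.ext (inv_eq_one.1 (Units.ext h5))
    rw [h6, orderOf_one] at hz
    exact hq.one_lt.ne hz
  · rw [hq, zero_dvd_iff] at hp
    exact Nat.card_pos.ne' hp

theorem main (M k V : Type*) [Monoid M] [Finite M] [Field k] [AddCommGroup V] [Module k V]
    [FiniteDimensional k V] [Nontrivial V] (ρ : M →* Module.End k V)
    (h : ∀ m, ρ m = 1 → m = 1) :
    ∃ n, 1 ≤ n ∧ ∃ W U : Submodule k (⨂[k] _ : Fin n, V), IsCompl W U ∧ W ≠ ⊥ ∧
      (∀ m, ∀ x ∈ W, tpow ρ n m x ∈ W) ∧ (∀ m, ∀ x ∈ U, tpow ρ n m x ∈ U) ∧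
      ∀ m, ¬ IsUnit m → ∀ x ∈ W, tpow ρ n m x = 0 := by
  classical
  haveI := Fintype.ofFinite M
  haveI := Fintype.ofFinite Mˣ
  choose vA fA hA1 hA2 hA3 using pairA ρ h
  choose vB fB hB1 hB2 using pairB ρ h
  set n := Fintype.card (M ⊕ M)
  let e : Fin n ≃ M ⊕ M := (Fintype.equivFin _).symm
  let v : Fin n → V := fun i => Sum.elim vA vB (e i)
  let f : Fin n → V →ₗ[k] k := fun i => Sum.elim fA fB (e i)
  let w := PiTensorProduct.tprod k v
  let Φ : (⨂[k] _ : Fin n, V) →ₗ[k] k :=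
    PiTensorProduct.lift ((MultilinearMap.mkPiAlgebra k (Fin n) k).compLinearMap f)
  have hΦ : ∀ x, Φ (PiTensorProduct.tprod k x) = ∏ i, f i (x i) := fun x => by simp [Φ]
  set R := tpow ρ n with hR
  have ha : ∀ m, ¬ IsUnit m → R m w = 0 := fun m hm => by
    rw [tpow_tprod]
    exact MultilinearMap.map_coord_zero _ (e.symm (.inl m)) (by simp [v, hA2 m hm])
  have hb : ∀ m, ¬ IsUnit m → ∀ x, Φ (R m x) = 0 := fun m hm x => by
    have : Φ ∘ₗ R m = 0 := by
      ext y
      simp only [LinearMap.compMultilinearMap_apply, LinearMap.comp_apply, LinearMap.zero_apply]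
      rw [tpow_tprod, hΦ]
      exact Finset.prod_eq_zero (Finset.mem_univ (e.symm (.inr m))) (by simp [f, hB2 m hm])
    exact LinearMap.congr_fun this x
  have hc : ∀ m, (¬ ∃ c : k, ρ m = c • 1) → Φ (R m w) = 0 := fun m hm => by
    rw [tpow_tprod, hΦ]
    exact Finset.prod_eq_zero (Finset.mem_univ (e.symm (.inl m))) (by simp [f, v, hA3 m hm])
  have hw : Φ w = 1 := by
    rw [hΦ]
    refine Finset.prod_eq_one fun i _ => ?_
    simp only [f, v]
    cases e i <;> simp [hA1, hB1]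
  have hd : ∀ g ∈ scal ρ, Φ (R ((g⁻¹ : Mˣ) : M) w) • R g w = w := by
    rintro g ⟨c, hc⟩
    have e1 : R ((g⁻¹ : Mˣ) : M) w = (∏ _i : Fin n, c) • w := by
      rw [tpow_tprod, hc]
      exact MultilinearMap.map_smul_univ _ (fun _ => c) v
    rw [e1, map_smul, hw, smul_eq_mul, mul_one, ← map_smul, ← e1, ← Module.End.mul_apply,
      ← map_mul, Units.mul_inv, map_one]
    rfl
  let π : Module.End k (⨂[k] _ : Fin n, V) :=
    ∑ g : Mˣ, (Φ ∘ₗ R ((g⁻¹ : Mˣ) : M)).smulRight (R g w)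
  have hπ : ∀ x, π x = ∑ g : Mˣ, Φ (R ((g⁻¹ : Mˣ) : M) x) • R g w := fun x => by
    simp [π, LinearMap.sum_apply]
  have mulR : ∀ a b x, R a (R b x) = R (a * b) x := fun a b x => by rw [map_mul]; rfl
  have p1 : ∀ m, ¬ IsUnit m → ∀ x, R m (π x) = 0 := fun m hm x => by
    rw [hπ, map_sum]
    refine Finset.sum_eq_zero fun g _ => ?_
    rw [map_smul, mulR, ha _ (by simpa using hm), smul_zero]
  have p2 : ∀ m x, π (R m x) = R m (π x) := by
    intro m x
    by_cases hm : IsUnit m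
    · obtain ⟨u, rfl⟩ := hm
      rw [hπ, hπ, map_sum, ← Equiv.sum_comp (Equiv.mulLeft u)]
      refine Finset.sum_congr rfl fun g _ => ?_
      rw [map_smul, mulR, mulR]
      simp [mul_assoc]
    · rw [p1 m hm, hπ]
      refine Finset.sum_eq_zero fun g _ => ?_
      rw [mulR, hb _ (by simpa using hm), zero_smul]
  obtain ⟨c, hc0, p3⟩ : ∃ c : k, c ≠ 0 ∧ π w = c • w := by
    refine ⟨_, card_ne ρ h, ?_⟩
    have s1 : ∑ g ∈ Finset.univ.filter (· ∈ scal ρ), Φ (R ((g⁻¹ : Mˣ) : M) w) • R g w =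
        ∑ _g ∈ Finset.univ.filter (· ∈ scal ρ), w :=
      Finset.sum_congr rfl fun g hg => hd g (Finset.mem_filter.1 hg).2
    have s2 : ∑ g ∈ Finset.univ.filter (¬ · ∈ scal ρ), Φ (R ((g⁻¹ : Mˣ) : M) w) • R g w = 0 :=
      Finset.sum_eq_zero fun g hg => by rw [hc _ (Finset.mem_filter.1 hg).2, zero_smul]
    rw [hπ, ← Finset.sum_filter_add_sum_filter_not Finset.univ (· ∈ scal ρ), s1, s2,
      add_zero, Finset.sum_const, Nat.cast_smul_eq_nsmul, Nat.card_eq_fintype_card,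
      Fintype.card_subtype]
  have p4 : ∀ x, π (π x) = c • π x := by
    intro x
    conv_lhs => rw [hπ x, map_sum]
    rw [hπ x, Finset.smul_sum]
    refine Finset.sum_congr rfl fun g _ => ?_
    rw [map_smul, p2, p3, map_smul, smul_comm]
  refine ⟨n, Fintype.card_pos, LinearMap.range π, LinearMap.ker π, ⟨?_, ?_⟩, ?_, ?_, ?_, ?_⟩
  · rw [Submodule.disjoint_def]
    rintro _ ⟨x, rfl⟩ hx
    exact (smul_eq_zero.1 ((p4 x).symm.trans hx)).resolve_left hc0
  · rw [codisjoint_iff, eq_top_iff]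
    intro x _
    refine Submodule.mem_sup.2 ⟨π (c⁻¹ • x), ⟨_, rfl⟩, x - π (c⁻¹ • x), ?_, by abel⟩
    rw [LinearMap.mem_ker, map_sub, p4, map_smul, smul_smul, mul_inv_cancel₀ hc0, one_smul,
      sub_self]
  · intro hbot
    have : π w = 0 := (Submodule.eq_bot_iff _).1 hbot _ ⟨w, rfl⟩
    rw [p3] at this
    have h0 := (smul_eq_zero.1 this).resolve_left hc0
    rw [h0, map_zero] at hw
    exact zero_ne_one hw
  · rintro m _ ⟨x, rfl⟩
    exact ⟨R m x, p2 m x⟩
  · intro m x hx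
    rw [LinearMap.mem_ker] at hx ⊢
    rw [p2, hx, map_zero]
  · rintro m hm _ ⟨x, rfl⟩
    exact p1 m hm x

theorem result (M k V : Type*) [Monoid M] [Finite M] [Field k] [AddCommGroup V] [Module k V]
    [FiniteDimensional k V] [Nontrivial V] (ρ : M →* Module.End k V)
    (h : ∀ m, ρ m = 1 → m = 1) : ∃ n, 1 ≤ n ∧ HasIndSummand (act ρ n) :=
  main M k V ρ h

end Pool.Agent.Results.MP_09fe95_al.Summand
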